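import Pool.Agent.W169.HF.DefsNF
import Pool.Agent.H471R3.GJ.HDir
import Pool.Agent.H471R3.GJ.HKer

set_option autoImplicit false

/-!
# Light proof of the analytic properties of the completed L-function of a weight two newform
(`Pool.Agent.W169.HF.S_NF1`).  The parts on the Fourier expansion are copied from
`Pool/Agent/H128R3/EC/NF.lean`.
-/

namespace Pool.Agent.W470.BG.NF1L

open Complex Filter Topology UpperHalfPlane MatrixGroups ModularForm CongruenceSubgroup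
open MeasureTheory Asymptotics Set
open Pool.Agent.H471R3.GJ
open scoped ComplexConjugate

/-- `f` is normalised, has real Fourier coefficients and is an eigenfunction of the Fricke
involution. -/
structure IsNorm (N : ℕ) (f : CuspForm (Gamma0 N : Subgroup (GL (Fin 2) ℝ)) 2) (ε : ℝ) : Prop where
  one : (qExpansion 1 f).coeff 1 = 1
  real : ∀ n, ((qExpansion 1 f).coeff n).im = 0
  sign : ε = 1 ∨ ε = -1
  fricke : ∀ τ τ' : ℍ, (τ' : ℂ) * ((N : ℂ) * (τ : ℂ)) = -1 →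
    f τ' = -(ε : ℂ) * (N : ℂ) * (τ : ℂ) ^ 2 * f τ

/-- The data. -/
noncomputable def nfHk (N : ℕ) (f : CuspForm (Gamma0 N : Subgroup (GL (Fin 2) ℝ)) 2) (B ε : ℝ) : Hk where
  φ y := (f (ofComplex (Complex.I * ((y / Real.sqrt N : ℝ) : ℂ)))).re
  b m := ((qExpansion 1 f).coeff m).re
  k := 2
  h := Real.sqrt N
  p := 1
  β := 1
  B := B
  ε := ε

section

variable {N : ℕ} [NeZero N] (f : CuspForm (Gamma0 N : Subgroup (GL (Fin 2) ℝ)) 2)

theorem one_mem0 : (1 : ℝ) ∈ (Gamma0 N : Subgroup (GL (Fin 2) ℝ)).strictPeriods := by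
  rw [strictPeriods_Gamma0]
  exact AddSubgroup.mem_zmultiples 1

theorem sum_iy0 (y : ℝ) (hy : 0 < y) :
    HasSum (fun m : ℕ => (qExpansion 1 f).coeff m *
      ((Real.exp (-(2 * Real.pi * (m : ℝ) * y)) : ℝ) : ℂ)) (f (ofComplex (Complex.I * y))) := by
  have h := ModularForm.hasSum_qExpansion (Γ := (Gamma0 N : Subgroup (GL (Fin 2) ℝ))) (k := 2) f one_pos
    one_mem0 (ofComplex (Complex.I * y))
  have him : 0 < (Complex.I * (y : ℂ)).im := by simpa using hy
  convert h using 2 with m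
  congr 1
  rw [ofComplex_apply_of_im_pos him]
  unfold Function.Periodic.qParam
  rw [← Complex.exp_nat_mul]
  simp only
  push_cast
  congr 1
  have hI : Complex.I ^ 2 = -1 := Complex.I_sq
  linear_combination (-(2 * Real.pi * m * y) : ℂ) * hI

theorem coeff_zero0 : (qExpansion 1 f).coeff 0 = 0 := by
  rw [CuspFormClass.qExpansion_coeff_zero (Γ := (Gamma0 N : Subgroup (GL (Fin 2) ℝ))) (k := 2) f one_pos
    one_mem0]

theorem coeff_bound0 : ∃ B : ℝ, 1 ≤ B ∧ ∀ m : ℕ, 1 ≤ m →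
    ‖(qExpansion 1 f).coeff m‖ ≤ B * (m : ℝ) ^ (1 : ℝ) := by
  have h := CuspFormClass.qExpansion_isBigO (k := 2) (Γ := (Gamma0 N : Subgroup (GL (Fin 2) ℝ))) f
  rw [strictWidthInfty_Gamma0] at h
  have e2 : (((2 : ℤ) : ℝ) / 2) = 1 := by norm_num
  rw [e2] at h
  obtain ⟨C, hC⟩ := h.bound
  obtain ⟨M, hM⟩ := eventually_atTop.1 hC
  set S : ℝ := ∑ m ∈ Finset.range M, ‖(qExpansion 1 f).coeff m‖ / (m : ℝ) ^ (1 : ℝ) with hS
  have hS0 : 0 ≤ S := Finset.sum_nonneg fun m _ => by positivity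
  refine ⟨1 + |C| + S, by have := abs_nonneg C; linarith, ?_⟩
  intro m hm
  have hm0 : (0 : ℝ) < m := by exact_mod_cast hm
  have hp : 0 < (m : ℝ) ^ (1 : ℝ) := Real.rpow_pos_of_pos hm0 _
  rcases lt_or_ge m M with hlt | hge
  · have h1 : ‖(qExpansion 1 f).coeff m‖ / (m : ℝ) ^ (1 : ℝ) ≤ S :=
      Finset.single_le_sum (f := fun m : ℕ => ‖(qExpansion 1 f).coeff m‖ / (m : ℝ) ^ (1 : ℝ))
        (fun i _ => by positivity) (Finset.mem_range.2 hlt)
    rw [div_le_iff₀ hp] at h1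
    refine h1.trans ?_
    gcongr
    have := abs_nonneg C
    linarith
  · have h1 := hM m hge
    rw [Real.norm_eq_abs, abs_of_pos hp] at h1
    refine h1.trans ?_
    gcongr
    have := le_abs_self C
    linarith

theorem nf_isHk {ε : ℝ} (hf : IsNorm N f ε) : ∃ B : ℝ, IsHk (nfHk N f B ε) := by
  obtain ⟨B, hB1, hB⟩ := coeff_bound0 f
  have hN : (0 : ℝ) < N := by exact_mod_cast Nat.pos_of_ne_zero (NeZero.ne N)
  have hsN : 0 < Real.sqrt N := Real.sqrt_pos.2 hN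
  refine ⟨B, by show (0 : ℝ) < 2; norm_num, hsN, le_refl 1, by show (0 : ℝ) ≤ 1; norm_num, hB1, ?_, ?_, ?_,
    hf.sign, ?_⟩
  · show ((qExpansion 1 f).coeff 1).re = 1
    rw [hf.one]
    simp
  · intro m hm
    exact (Complex.abs_re_le_norm _).trans (hB m hm)
  · intro y hy
    have hy' : 0 < y / Real.sqrt N := div_pos hy hsN
    have h := Complex.hasSum_re (sum_iy0 f (y / Real.sqrt N) hy')
    have h2 := (hasSum_nat_add_iff' 1).2 h
    simp only [Finset.range_one, Finset.sum_singleton, coeff_zero0, zero_mul, Complex.zero_re,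
      sub_zero] at h2
    refine h2.congr_fun ?_
    intro m
    rw [Complex.re_mul_ofReal]
    show ((qExpansion 1 f).coeff (m + 1)).re *
      Real.exp (-(2 * Real.pi * ((m + 1 : ℕ) : ℝ) ^ 1 * y / Real.sqrt N)) = _
    rw [pow_one, mul_div_assoc]
  · intro y hy
    show (f (ofComplex (Complex.I * ((1 / y / Real.sqrt N : ℝ) : ℂ)))).re =
      ε * y ^ (2 : ℝ) * (f (ofComplex (Complex.I * ((y / Real.sqrt N : ℝ) : ℂ)))).re
    have hy1 : 0 < y / Real.sqrt N := div_pos hy hsN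
    have hy2 : 0 < 1 / y / Real.sqrt N := by positivity
    have him1 : 0 < (Complex.I * ((y / Real.sqrt N : ℝ) : ℂ)).im := by
      rw [Complex.I_mul_im, Complex.ofReal_re]
      exact hy1
    have him2 : 0 < (Complex.I * ((1 / y / Real.sqrt N : ℝ) : ℂ)).im := by
      rw [Complex.I_mul_im, Complex.ofReal_re]
      exact hy2
    have hsq : (Real.sqrt N : ℂ) ^ 2 = N := by
      have : Real.sqrt N ^ 2 = N := Real.sq_sqrt hN.le
      exact_mod_cast this
    have hsqne : (Real.sqrt N : ℂ) ≠ 0 := by exact_mod_cast hsN.ne'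
    have hyc : (y : ℂ) ≠ 0 := by exact_mod_cast hy.ne'
    have h1 := hf.fricke (ofComplex (Complex.I * ((y / Real.sqrt N : ℝ) : ℂ)))
      (ofComplex (Complex.I * ((1 / y / Real.sqrt N : ℝ) : ℂ))) (by
        rw [ofComplex_apply_of_im_pos him1, ofComplex_apply_of_im_pos him2]
        simp only
        push_cast
        rw [← hsq]
        have hI : Complex.I ^ 2 = -1 := Complex.I_sq
        field_simp
        exact hI)
    rw [h1]
    rw [ofComplex_apply_of_im_pos him1]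
    have e1 : -(ε : ℂ) * (N : ℂ) * (Complex.I * ((y / Real.sqrt N : ℝ) : ℂ)) ^ 2 =
        ((ε * y ^ (2 : ℝ) : ℝ) : ℂ) := by
      have e3 : (y : ℝ) ^ (2 : ℝ) = y ^ (2 : ℕ) := by norm_cast
      rw [e3]
      push_cast
      rw [mul_pow, Complex.I_sq, div_pow, hsq]
      have hNc : (N : ℂ) ≠ 0 := by exact_mod_cast NeZero.ne N
      field_simp
    simp only
    rw [e1, Complex.re_ofReal_mul]

/-- The Dirichlet series. -/
theorem nf_dir {B ε : ℝ} (hf : IsNorm N f ε) (h : IsHk (nfHk N f B ε)) (s : ℂ) (hs : 2 < s.re) :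
    mellin (fun y : ℝ => (((nfHk N f B ε).φ y : ℝ) : ℂ)) s =
      ((Real.sqrt N / (2 * Real.pi) : ℝ) : ℂ) ^ s * Complex.Gamma s *
        ∑' n : ℕ, (qExpansion 1 f).coeff (n + 1) * ((n + 1 : ℕ) : ℂ) ^ (-s) := by
  have h1 := dir (nfHk N f B ε) h s (by linarith) (by
    show (1 : ℝ) + 1 < ((1 : ℕ) : ℝ) * s.re
    push_cast
    linarith)
  rw [h1]
  show ((Real.sqrt N / (2 * Real.pi) : ℝ) : ℂ) ^ s * Complex.Gamma s *
    ∑' m : ℕ, ((((qExpansion 1 f).coeff (m + 1)).re : ℝ) : ℂ) * ((m + 1 : ℕ) : ℂ) ^ (-((1 : ℕ) : ℂ) * s) = _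
  congr 1
  refine tsum_congr fun m => ?_
  have e1 : ((((qExpansion 1 f).coeff (m + 1)).re : ℝ) : ℂ) = (qExpansion 1 f).coeff (m + 1) := by
    apply Complex.ext
    · simp
    · rw [Complex.ofReal_im, hf.real]
  rw [e1]
  congr 2
  push_cast
  ring

end

/-! ### The Mellin transform -/

section Mel

variable {H : Hk}

/-- complex valued -/
noncomputable def dc (H : Hk) (y : ℝ) : ℂ := ((H.φ y : ℝ) : ℂ)

lemma dc_loc (h : IsHk H) : LocallyIntegrableOn (dc H) (Ioi 0) := by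
  have h1 : ContinuousOn (dc H) (Ioi 0) :=
    Complex.continuous_ofReal.comp_continuousOn (ker H h).1
  exact h1.locallyIntegrableOn measurableSet_Ioi

lemma dc_top (h : IsHk H) : dc H =O[atTop] fun t => Real.exp (-(2 * Real.pi / H.h) * t) := by
  obtain ⟨-, ⟨C, hC⟩, -⟩ := ker H h
  refine IsBigO.of_bound C ?_
  filter_upwards [eventually_ge_atTop 1] with y hy
  rw [dc, Complex.norm_real, Real.norm_eq_abs, Real.norm_eq_abs, Real.abs_exp]
  refine (hC y hy).trans (le_of_eq ?_)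
  congr 2
  ring

lemma dc_inv (h : IsHk H) (hk : H.k = 2) {y : ℝ} (hy : 0 < y) :
    dc H y⁻¹ = ((H.ε * y ^ 2 : ℝ) : ℂ) * dc H y := by
  have h1 := h.φ_inv y hy
  unfold dc
  rw [← one_div, h1, hk]
  have e3 : (y : ℝ) ^ (2 : ℝ) = y ^ (2 : ℕ) := by norm_cast
  rw [e3]
  push_cast
  ring

lemma dc_bot (h : IsHk H) (hk : H.k = 2) (b : ℝ) : dc H =O[𝓝[>] 0] (fun y : ℝ => y ^ (-b)) := by
  have hh := h.h_pos
  have hc0 : 0 < 2 * Real.pi / H.h := by positivity
  have h1 : dc H =O[atTop] fun t : ℝ => t ^ (-(2 - b)) :=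
    (dc_top h).trans (isLittleO_exp_neg_mul_rpow_atTop hc0 _).isBigO
  have h2 := h1.comp_tendsto tendsto_inv_nhdsGT_zero
  obtain ⟨c, hc⟩ := h2.bound
  refine IsBigO.of_bound c ?_
  filter_upwards [hc, self_mem_nhdsWithin] with y h3 hy
  have hy0 : 0 < y := hy
  simp only [Function.comp_apply] at h3
  have h12 : 0 < y ^ 2 := by positivity
  have hε : |H.ε| = 1 := by
    rcases h.ε_or with h4 | h4 <;> rw [h4] <;> simp
  rw [dc_inv h hk hy0, norm_mul, Complex.norm_real, Real.norm_eq_abs, abs_mul, hε, one_mul,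
    abs_of_pos h12] at h3
  have e2 : ‖(y⁻¹) ^ (-(2 - b))‖ = y ^ 2 * y ^ (-b) := by
    rw [Real.norm_of_nonneg (by positivity), Real.inv_rpow hy0.le, ← Real.rpow_neg hy0.le,
      ← Real.rpow_natCast, ← Real.rpow_add hy0]
    congr 1
    push_cast
    ring
  rw [e2] at h3
  rw [Real.norm_of_nonneg (by positivity : 0 ≤ y ^ (-b))]
  have h4 : y ^ 2 * ‖dc H y‖ ≤ y ^ 2 * (c * y ^ (-b)) := by
    calc y ^ 2 * ‖dc H y‖ ≤ c * (y ^ 2 * y ^ (-b)) := h3
      _ = _ := by ring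
  exact le_of_mul_le_mul_left h4 h12

lemma dc_conv (h : IsHk H) (hk : H.k = 2) (s : ℂ) : MellinConvergent (dc H) s := by
  have hh := h.h_pos
  have hc0 : 0 < 2 * Real.pi / H.h := by positivity
  exact mellinConvergent_of_isBigO_rpow_exp hc0 (dc_loc h) (dc_top h) (dc_bot h hk (s.re - 1))
    (by linarith)

lemma mel_diff (h : IsHk H) (hk : H.k = 2) : Differentiable ℂ (mellin (dc H)) := by
  intro s
  have hh := h.h_pos
  have hc0 : 0 < 2 * Real.pi / H.h := by positivity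
  exact mellin_differentiableAt_of_isBigO_rpow_exp hc0 (dc_loc h) (dc_top h)
    (dc_bot h hk (s.re - 1)) (by linarith)

lemma mel_fe (h : IsHk H) (hk : H.k = 2) (s : ℂ) :
    mellin (dc H) (2 - s) = (H.ε : ℂ) * mellin (dc H) s := by
  have h1 := mellin_comp_inv (dc H) (-(2 - s))
  rw [neg_neg] at h1
  have h2 := mellin_cpow_smul (fun t : ℝ => (H.ε : ℂ) • dc H t) (-(2 - s)) 2
  have h3 : mellin (fun t => dc H t⁻¹) (-(2 - s)) =
      mellin (fun t : ℝ => (t : ℂ) ^ (2 : ℂ) • ((H.ε : ℂ) • dc H t)) (-(2 - s)) := by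
    unfold mellin
    refine setIntegral_congr_fun measurableSet_Ioi fun t ht => ?_
    have ht0 : 0 < t := ht
    have e1 : dc H t⁻¹ = (t : ℂ) ^ (2 : ℂ) • ((H.ε : ℂ) • dc H t) := by
      rw [dc_inv h hk ht0, smul_eq_mul, smul_eq_mul]
      have e2 : (t : ℂ) ^ (2 : ℂ) = (t : ℂ) ^ (2 : ℕ) := by
        rw [show (2 : ℂ) = ((2 : ℕ) : ℂ) by norm_num, Complex.cpow_natCast]
      rw [e2]
      push_cast
      ring
    simp only
    rw [e1]
  have h4 := mellin_const_smul (dc H) s (H.ε : ℂ)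
  rw [← h1, h3, h2]
  have e5 : -(2 - s) + 2 = s := by ring
  rw [e5, h4, smul_eq_mul]

lemma mel_conj (s : ℂ) : mellin (dc H) (conj s) = conj (mellin (dc H) s) := by
  unfold mellin
  rw [← integral_conj]
  refine setIntegral_congr_fun measurableSet_Ioi fun t ht => ?_
  have ht' : 0 < t := ht
  unfold dc
  simp only [smul_eq_mul, map_mul, Complex.conj_ofReal]
  congr 1
  have h1 : ((t : ℝ) : ℂ).arg ≠ Real.pi := by
    rw [Complex.arg_ofReal_of_nonneg ht'.le]
    exact Real.pi_pos.ne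
  have h2 := Complex.cpow_conj ((t : ℝ) : ℂ) (s - 1) h1
  rw [Complex.conj_ofReal] at h2
  rw [← h2]
  congr 1
  rw [map_sub, map_one]

lemma mel_strip (h : IsHk H) (hk : H.k = 2) (a b : ℝ) :
    ∃ C : ℝ, ∀ s : ℂ, a ≤ s.re → s.re ≤ b → ‖mellin (dc H) s‖ ≤ C := by
  have c1 := dc_conv h hk ((b : ℝ) : ℂ)
  have c2 := dc_conv h hk ((a : ℝ) : ℂ)
  refine ⟨∫ t in Ioi (0 : ℝ), (‖(t : ℂ) ^ (((b : ℝ) : ℂ) - 1) • dc H t‖ +
    ‖(t : ℂ) ^ (((a : ℝ) : ℂ) - 1) • dc H t‖), fun s hs1 hs2 => ?_⟩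
  unfold mellin
  refine (norm_integral_le_integral_norm _).trans ?_
  refine setIntegral_mono_on (dc_conv h hk s).norm (c1.norm.add c2.norm) measurableSet_Ioi
    fun t ht => ?_
  have ht0 : 0 < t := ht
  rw [norm_smul, norm_smul, norm_smul, norm_cpow_eq_rpow_re_of_pos ht0,
    norm_cpow_eq_rpow_re_of_pos ht0, norm_cpow_eq_rpow_re_of_pos ht0, ← add_mul]
  refine mul_le_mul_of_nonneg_right ?_ (norm_nonneg _)
  simp only [sub_re, one_re, ofReal_re]
  rcases le_total 1 t with h1 | h1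
  · have := Real.rpow_le_rpow_of_exponent_le h1 (by linarith : s.re - 1 ≤ b - 1)
    have h2 : 0 ≤ t ^ (a - 1) := by positivity
    linarith
  · have := Real.rpow_le_rpow_of_exponent_ge ht0 h1 (by linarith : a - 1 ≤ s.re - 1)
    have h2 : 0 ≤ t ^ (b - 1) := by positivity
    linarith

end Mel

/-- Light proof of NF1. -/
theorem nf1l : Pool.Agent.W169.HF.S_NF1 := by
  intro N _ f w hf
  have hf' : IsNorm N f w := ⟨hf.one, hf.real, hf.sign, hf.fricke⟩
  obtain ⟨B, hH⟩ := nf_isHk f hf'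
  have hk : (nfHk N f B w).k = 2 := rfl
  refine ⟨mellin (dc (nfHk N f B w)), ⟨mel_diff hH hk, fun s hs => nf_dir f hf' hH s hs⟩, ?_,
    fun s => mel_conj s, fun a b => mel_strip hH hk a b⟩
  intro s
  exact mel_fe hH hk s

end Pool.Agent.W470.BG.NF1L
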