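import Pool.Agent.W475.BG.Inst
import Pool.Agent.H128R3.JD.DelK

set_option autoImplicit false

/-!
# Task DEL of project BG: the discriminant
-/

namespace Pool.Agent.W470.BG.DEL

open Complex MeasureTheory Filter Topology Set Asymptotics
open Pool.Agent.W475.BG
open Pool.Agent.H128R3.JD.DelK (Dl Dl_pos Dl_le Dl_inv Dl_cont)
open scoped ComplexConjugate

/-- the discriminant on the imaginary axis, complex valued -/
noncomputable def dc (y : ℝ) : ℂ := ((delta y : ℝ) : ℂ)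

lemma delta_eq : delta = Dl := rfl

lemma LamD_eq (s : ℂ) : LamD s = mellin dc s := rfl

lemma dc_loc : LocallyIntegrableOn dc (Ioi 0) := by
  have h : ContinuousOn dc (Ioi 0) := Complex.continuous_ofReal.comp_continuousOn Dl_cont
  exact h.locallyIntegrableOn measurableSet_Ioi

lemma dc_top : dc =O[atTop] fun t => Real.exp (-1 * t) := by
  refine IsBigO.of_bound 1 ?_
  filter_upwards [eventually_gt_atTop 0] with y hy
  rw [one_mul, dc, Complex.norm_real, Real.norm_eq_abs, Real.norm_eq_abs, delta_eq,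
    abs_of_pos (Dl_pos hy), Real.abs_exp]
  refine (Dl_le hy).trans (Real.exp_le_exp.2 ?_)
  nlinarith [Real.pi_gt_three]

lemma dc_bot (b : ℝ) : dc =O[𝓝[>] 0] (fun y : ℝ => y ^ (-b)) := by
  have h1 : dc =O[atTop] fun t : ℝ => t ^ (-(12 - b)) :=
    dc_top.trans (isLittleO_exp_neg_mul_rpow_atTop one_pos _).isBigO
  have h2 := h1.comp_tendsto tendsto_inv_nhdsGT_zero
  obtain ⟨c, hc⟩ := h2.bound
  refine IsBigO.of_bound c ?_
  filter_upwards [hc, self_mem_nhdsWithin] with y h3 hy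
  have hy0 : 0 < y := hy
  simp only [Function.comp_apply] at h3
  have e1 : dc y⁻¹ = ((y ^ 12 : ℝ) : ℂ) * dc y := by
    unfold dc
    rw [delta_eq, Dl_inv hy0]
    push_cast
    rfl
  rw [e1, norm_mul] at h3
  have h12 : 0 < y ^ 12 := by positivity
  rw [Complex.norm_real, Real.norm_of_nonneg h12.le] at h3
  have e2 : ‖(y⁻¹) ^ (-(12 - b))‖ = y ^ 12 * y ^ (-b) := by
    rw [Real.norm_of_nonneg (by positivity), Real.inv_rpow hy0.le, ← Real.rpow_neg hy0.le,
      ← Real.rpow_natCast, ← Real.rpow_add hy0]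
    congr 1
    push_cast
    ring
  rw [e2] at h3
  rw [Real.norm_of_nonneg (by positivity : 0 ≤ y ^ (-b))]
  have h4 : y ^ 12 * ‖dc y‖ ≤ y ^ 12 * (c * y ^ (-b)) := by
    calc y ^ 12 * ‖dc y‖ ≤ c * (y ^ 12 * y ^ (-b)) := h3
      _ = _ := by ring
  exact le_of_mul_le_mul_left h4 h12

lemma dc_conv (s : ℂ) : MellinConvergent dc s :=
  mellinConvergent_of_isBigO_rpow_exp one_pos dc_loc dc_top (dc_bot (s.re - 1)) (by linarith)

lemma LamD_diff : Differentiable ℂ LamD := fun s =>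
  mellin_differentiableAt_of_isBigO_rpow_exp one_pos dc_loc dc_top (dc_bot (s.re - 1)) (by linarith)

lemma LamD_fe (s : ℂ) : LamD (12 - s) = LamD s := by
  have h1 := mellin_comp_inv dc (-(12 - s))
  rw [neg_neg] at h1
  have h2 := mellin_cpow_smul dc (-(12 - s)) 12
  have h3 : mellin (fun t => dc t⁻¹) (-(12 - s)) =
      mellin (fun t : ℝ => (t : ℂ) ^ (12 : ℂ) • dc t) (-(12 - s)) := by
    unfold mellin
    refine setIntegral_congr_fun measurableSet_Ioi fun t ht => ?_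
    have ht0 : 0 < t := ht
    have e1 : dc t⁻¹ = (t : ℂ) ^ (12 : ℂ) • dc t := by
      unfold dc
      rw [delta_eq, Dl_inv ht0, smul_eq_mul]
      push_cast
      congr 1
      rw [show (12 : ℂ) = ((12 : ℕ) : ℂ) by norm_num, Complex.cpow_natCast]
    simp only
    rw [e1]
  rw [LamD_eq, LamD_eq, ← h1, h3, h2]
  congr 1
  ring

lemma LamD_conj (s : ℂ) : conj (LamD (conj s)) = LamD s := by
  show conj (∫ t in Ioi (0 : ℝ), (t : ℂ) ^ (conj s - 1) • dc t) =
    ∫ t in Ioi (0 : ℝ), (t : ℂ) ^ (s - 1) • dc t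
  rw [← integral_conj]
  refine setIntegral_congr_fun measurableSet_Ioi fun t ht => ?_
  have ht0 : 0 < t := ht
  simp only [smul_eq_mul, map_mul]
  have h1 : conj (dc t) = dc t := Complex.conj_ofReal _
  have harg : ((t : ℝ) : ℂ).arg ≠ Real.pi := by
    rw [Complex.arg_ofReal_of_nonneg ht0.le]
    exact Real.pi_ne_zero.symm
  have h2 : conj ((t : ℂ) ^ (conj s - 1)) = (t : ℂ) ^ (s - 1) := by
    have h3 := Complex.cpow_conj (t : ℂ) (conj s - 1) harg
    rw [Complex.conj_ofReal] at h3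
    rw [← h3]
    congr 1
    simp
  rw [h1, h2]

lemma LamD_strip (K : ℝ) : ∃ C : ℝ, ∀ s : ℂ, |s.re| ≤ K → ‖LamD s‖ ≤ C := by
  have c1 := dc_conv ((K : ℝ) : ℂ)
  have c2 := dc_conv ((-K : ℝ) : ℂ)
  refine ⟨∫ t in Ioi (0 : ℝ), (‖(t : ℂ) ^ (((K : ℝ) : ℂ) - 1) • dc t‖ +
    ‖(t : ℂ) ^ (((-K : ℝ) : ℂ) - 1) • dc t‖), fun s hs => ?_⟩
  obtain ⟨hs1, hs2⟩ := abs_le.1 hs
  rw [LamD_eq]
  unfold mellin
  refine (norm_integral_le_integral_norm _).trans ?_
  refine setIntegral_mono_on (dc_conv s).norm (c1.norm.add c2.norm) measurableSet_Ioi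
    fun t ht => ?_
  have ht0 : 0 < t := ht
  rw [norm_smul, norm_smul, norm_smul, norm_cpow_eq_rpow_re_of_pos ht0,
    norm_cpow_eq_rpow_re_of_pos ht0, norm_cpow_eq_rpow_re_of_pos ht0, ← add_mul]
  refine mul_le_mul_of_nonneg_right ?_ (norm_nonneg _)
  simp only [sub_re, one_re, ofReal_re]
  rcases le_total 1 t with h1 | h1
  · have := Real.rpow_le_rpow_of_exponent_le h1 (by linarith : s.re - 1 ≤ K - 1)
    have h2 : 0 ≤ t ^ (-K - 1) := by positivity
    linarith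
  · have := Real.rpow_le_rpow_of_exponent_ge ht0 h1 (by linarith : -K - 1 ≤ s.re - 1)
    have h2 : 0 ≤ t ^ (K - 1) := by positivity
    linarith

lemma LamD_ser (τ : ℕ → ℝ) (h0 : τ 0 = 0)
    (hsum : ∀ y : ℝ, 0 < y → HasSum (fun n : ℕ => τ n * Real.exp (-2 * Real.pi * n * y)) (delta y))
    (A : ℝ) (hA : 0 ≤ A) (hb : ∀ n : ℕ, 1 ≤ n → |τ n| ≤ (n : ℝ) ^ A) (s : ℂ)
    (hre : A + 2 ≤ s.re) :
    2 * LamD s = Gammaℂ s * LSeries (fun n => ((τ n : ℝ) : ℂ)) s := by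
  have hpi := Real.pi_gt_three
  have hp : ∀ i : ℕ, ((τ i : ℝ) : ℂ) = 0 ∨ 0 < 2 * Real.pi * (i : ℝ) := by
    intro i
    rcases Nat.eq_zero_or_pos i with hi | hi
    · left
      rw [hi, h0]
      norm_num
    · right
      have : (0 : ℝ) < i := by exact_mod_cast hi
      positivity
  have hF : ∀ t ∈ Ioi (0 : ℝ), HasSum (fun i : ℕ => ((τ i : ℝ) : ℂ) *
      ((Real.exp (-(2 * Real.pi * (i : ℝ)) * t) : ℝ) : ℂ)) (dc t) := by
    intro t ht
    have h1 := Complex.hasSum_ofReal.2 (hsum t ht)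
    refine h1.congr_fun ?_
    intro i
    push_cast
    congr 2
    ring
  have hS : Summable fun i : ℕ => ‖((τ i : ℝ) : ℂ)‖ / (2 * Real.pi * (i : ℝ)) ^ s.re := by
    refine Summable.of_nonneg_of_le (fun i => by positivity) (fun i => ?_)
      (Real.summable_one_div_nat_pow.2 (by norm_num : 1 < 2))
    rcases Nat.eq_zero_or_pos i with hi | hi
    · rw [hi, h0]
      norm_num
    · have hi0 : (0 : ℝ) < i := by exact_mod_cast hi
      have hi1 : (1 : ℝ) ≤ i := by exact_mod_cast hi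
      have h1 : (i : ℝ) ^ (A + 2) ≤ (2 * Real.pi * (i : ℝ)) ^ s.re := by
        calc (i : ℝ) ^ (A + 2) ≤ (i : ℝ) ^ s.re := Real.rpow_le_rpow_of_exponent_le hi1 hre
          _ ≤ (2 * Real.pi * (i : ℝ)) ^ s.re := by
              apply Real.rpow_le_rpow hi0.le _ (by linarith)
              nlinarith
      rw [Complex.norm_real, Real.norm_eq_abs]
      rw [div_le_div_iff₀ (by positivity) (by positivity), one_mul]
      calc |τ i| * (i : ℝ) ^ 2 ≤ (i : ℝ) ^ A * (i : ℝ) ^ 2 := by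
            gcongr
            exact hb i hi
        _ = (i : ℝ) ^ (A + 2) := by
            rw [Real.rpow_add hi0]
            norm_num
        _ ≤ _ := h1
  have h := (hasSum_mellin hp (by linarith) hF hS).tsum_eq
  rw [LamD_eq, ← h, LSeries, ← tsum_mul_left, ← tsum_mul_left]
  refine tsum_congr fun i => ?_
  rcases Nat.eq_zero_or_pos i with hi | hi
  · rw [hi, LSeries.term_zero, h0]
    simp
  · rw [LSeries.term_of_ne_zero hi.ne', Gammaℂ_def]
    have e1 : ((2 * Real.pi * (i : ℝ) : ℝ) : ℂ) ^ s = (2 * (Real.pi : ℂ)) ^ s * (i : ℂ) ^ s := by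
      have h2 := Complex.mul_cpow_ofReal_nonneg (by positivity : (0 : ℝ) ≤ 2 * Real.pi)
        (by positivity : (0 : ℝ) ≤ i) s
      push_cast at h2 ⊢
      exact h2
    rw [e1, Complex.cpow_neg]
    have hne : (2 * (Real.pi : ℂ)) ^ s ≠ 0 := by
      rw [Ne, Complex.cpow_eq_zero_iff]
      rintro ⟨h3, -⟩
      have : (Real.pi : ℂ) ≠ 0 := by exact_mod_cast Real.pi_ne_zero
      simp [this] at h3
    have hne2 : (i : ℂ) ^ s ≠ 0 := by
      rw [Ne, Complex.cpow_eq_zero_iff]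
      rintro ⟨h3, -⟩
      exact hi.ne' (by exact_mod_cast h3)
    field_simp

/-- Task DEL. -/
theorem del (hP : S_PRM) : S_DEL := by
  intro τ h0 h1 hmul hsum hgr hshrt hprim
  obtain ⟨A, hA, hb⟩ := hgr
  refine ⟨⟨2, ![11 / 2, 13 / 2], 1, fun n => ((τ n / (n : ℝ) ^ (11 / 2 : ℝ) : ℝ) : ℂ),
    fun s => 2 * LamD (s + 11 / 2), 1⟩, ?_, rfl, 2, two_ne_zero, fun s => rfl⟩
  refine ⟨by norm_num, ?_, one_pos, by simp, ?_, ?_, ⟨A, hA, ?_⟩, ?_, ?_, ⟨A + 2, ?_⟩, ?_, hshrt,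
    hP _ hprim⟩
  · intro j
    fin_cases j
    · show (0 : ℝ) ≤ 11 / 2
      norm_num
    · show (0 : ℝ) ≤ 13 / 2
      norm_num
  · show ((τ 1 / ((1 : ℕ) : ℝ) ^ (11 / 2 : ℝ) : ℝ) : ℂ) = 1
    rw [h1]
    norm_num
  · intro p n hp hn hpn
    show ((τ (p * n) / ((p * n : ℕ) : ℝ) ^ (11 / 2 : ℝ) : ℝ) : ℂ) =
      ((τ p / (p : ℝ) ^ (11 / 2 : ℝ) : ℝ) : ℂ) * ((τ n / (n : ℝ) ^ (11 / 2 : ℝ) : ℝ) : ℂ)
    rw [hmul p n hp hn hpn, Nat.cast_mul, Real.mul_rpow (by positivity) (by positivity),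
      ← Complex.ofReal_mul]
    congr 1
    rw [div_mul_div_comm]
  · intro n hn
    show ‖((τ n / (n : ℝ) ^ (11 / 2 : ℝ) : ℝ) : ℂ)‖ ≤ (n : ℝ) ^ A
    rw [Complex.norm_real, Real.norm_eq_abs, abs_div]
    have hn1 : (1 : ℝ) ≤ n := by exact_mod_cast hn
    have h2 : (1 : ℝ) ≤ (n : ℝ) ^ (11 / 2 : ℝ) := Real.one_le_rpow hn1 (by norm_num)
    rw [abs_of_pos (by linarith : 0 < (n : ℝ) ^ (11 / 2 : ℝ))]
    exact (div_le_self (abs_nonneg _) h2).trans (hb n hn)
  · show Differentiable ℂ (fun s : ℂ => 2 * LamD (s + 11 / 2))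
    exact (LamD_diff.comp (differentiable_id.add_const _)).const_mul 2
  · intro K
    obtain ⟨C, hC⟩ := LamD_strip (K + 11 / 2)
    refine ⟨2 * C, fun s hs => ?_⟩
    show ‖2 * LamD (s + 11 / 2)‖ ≤ 2 * C
    rw [norm_mul]
    have h2 : ‖(2 : ℂ)‖ = 2 := by norm_num
    rw [h2]
    have h3 : (s + 11 / 2).re = s.re + 11 / 2 := by
      rw [Complex.add_re]
      norm_num
    have h4 := hC (s + 11 / 2) (by
      rw [h3]
      obtain ⟨h5, h6⟩ := abs_le.1 hs
      rw [abs_le]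
      constructor <;> linarith)
    linarith
  · intro s hs
    show 2 * LamD (s + 11 / 2) = ((1 : ℝ) : ℂ) ^ s *
      (∏ j : Fin 2, Gammaℝ (s + ((![11 / 2, 13 / 2] : Fin 2 → ℝ) j : ℝ))) *
      LSeries (fun n => ((τ n / (n : ℝ) ^ (11 / 2 : ℝ) : ℝ) : ℂ)) s
    have h3 : (s + 11 / 2).re = s.re + 11 / 2 := by
      rw [Complex.add_re]
      norm_num
    rw [LamD_ser τ h0 hsum A hA hb (s + 11 / 2) (by rw [h3]; linarith), Complex.ofReal_one,
      Complex.one_cpow, one_mul, Fin.prod_univ_two]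
    have e1 : Gammaℝ (s + ((![11 / 2, 13 / 2] : Fin 2 → ℝ) 0 : ℝ)) *
        Gammaℝ (s + ((![11 / 2, 13 / 2] : Fin 2 → ℝ) 1 : ℝ)) = Gammaℂ (s + 11 / 2) := by
      rw [← Gammaℝ_mul_Gammaℝ_add_one]
      congr 2
      · simp
      · simp
        ring
    rw [e1]
    congr 1
    unfold LSeries
    refine tsum_congr fun n => ?_
    rcases Nat.eq_zero_or_pos n with hn | hn
    · rw [hn, LSeries.term_zero, LSeries.term_zero]
    · rw [LSeries.term_of_ne_zero hn.ne', LSeries.term_of_ne_zero hn.ne']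
      have hn0 : (0 : ℝ) < n := by exact_mod_cast hn
      have hnc : (n : ℂ) ≠ 0 := by exact_mod_cast hn.ne'
      rw [Complex.cpow_add _ _ hnc, Complex.ofReal_div, Complex.ofReal_cpow hn0.le]
      push_cast
      rw [div_div, mul_comm]
  · intro s
    show 2 * LamD (1 - s + 11 / 2) = 1 * conj (2 * LamD (conj s + 11 / 2))
    rw [map_mul, one_mul, Complex.conj_ofNat]
    congr 1
    have e1 : conj s + 11 / 2 = conj (s + 11 / 2) := by
      rw [map_add, map_div₀, map_ofNat, map_ofNat]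
    rw [e1, LamD_conj, ← LamD_fe]
    congr 1
    ring

end Pool.Agent.W470.BG.DEL
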